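import Pool.Agent.Q99.HU.Stm1
import Pool.Agent.W51.BS.LL

/-!
# Job HU-CC of helper99: concavity
-/

set_option autoImplicit false

namespace Pool.Agent.Q176.HU

open Set
open Pool.Agent.W719.BS (LL)
open Pool.Agent.W358.BSTay (gg)
open Pool.Agent.Q99.FAL (dn n1 n2)
open Pool.Agent.Q99.HU

/-- the derivative is decreasing -/
theorem gg_anti {v s t : ℝ} (hv1 : v ≤ 1) (hs : 0 < s) (hst : s ≤ t) (ht : t < v) :
    gg (v - t) - gg t ≤ gg (v - s) - gg s := by
  have hp := Real.pi_pos
  have pos : ∀ u : ℝ, 0 < u → u < 1 → 0 < Real.sin (Real.pi * u) := fun u h0 h1 =>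
    Real.sin_pos_of_pos_of_lt_pi (by positivity) (by nlinarith)
  have p1 := pos (v - t) (by linarith) (by linarith)
  have p2 := pos t (by linarith) (by linarith)
  have p3 := pos (v - s) (by linarith) (by linarith)
  have p4 := pos s hs (by linarith)
  unfold gg
  rw [← Real.log_div (by positivity) (by positivity), ← Real.log_div (by positivity) (by positivity)]
  apply Real.log_le_log (by positivity)
  rw [div_le_div_iff₀ (by positivity) (by positivity)]
  have e : Real.sin (Real.pi * (v - s)) * Real.sin (Real.pi * t) -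
      Real.sin (Real.pi * (v - t)) * Real.sin (Real.pi * s) =
      Real.sin (Real.pi * v) * Real.sin (Real.pi * (t - s)) := by
    have h1 : Real.pi * (v - s) = Real.pi * v - Real.pi * s := by ring
    have h2 : Real.pi * (v - t) = Real.pi * v - Real.pi * t := by ring
    have h3 : Real.pi * (t - s) = Real.pi * t - Real.pi * s := by ring
    rw [h1, h2, h3, Real.sin_sub, Real.sin_sub, Real.sin_sub]
    ring
  have h1 : 0 ≤ Real.sin (Real.pi * v) :=
    Real.sin_nonneg_of_nonneg_of_le_pi (by nlinarith) (by nlinarith)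
  have h2 : 0 ≤ Real.sin (Real.pi * (t - s)) :=
    Real.sin_nonneg_of_nonneg_of_le_pi (by nlinarith) (by nlinarith)
  have h3 := mul_nonneg h1 h2
  nlinarith

theorem conc {v : ℝ} (hv1 : v ≤ 1) : ConcaveOn ℝ (Icc 0 v) (fun s => LL v - LL (v - s) - LL s) := by
  have hc : Continuous (fun s => LL v - LL (v - s) - LL s) := by
    have h := Pool.Agent.W719.BS.LL_cont
    exact (continuous_const.sub (h.comp (continuous_const.sub continuous_id))).sub h
  have hd : ∀ s ∈ interior (Icc 0 v), HasDerivAt (fun s => LL v - LL (v - s) - LL s)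
      (gg (v - s) - gg s) s := by
    intro s hs
    rw [interior_Icc] at hs
    have h1 : HasDerivAt LL (gg (v - s)) (v - s) :=
      Pool.Agent.W51.BS.LL_hasDeriv (by linarith [hs.2]) (by linarith [hs.1])
    have h2 : HasDerivAt LL (gg s) s :=
      Pool.Agent.W51.BS.LL_hasDeriv hs.1 (by linarith [hs.2])
    have h3 : HasDerivAt (fun s : ℝ => v - s) (-1) s := by
      simpa using (hasDerivAt_id s).const_sub v
    have h4 := ((h1.comp s h3).const_sub (LL v)).sub h2
    have e : -(gg (v - s) * -1) - gg s = gg (v - s) - gg s := by ring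
    rw [e] at h4
    exact h4
  apply AntitoneOn.concaveOn_of_deriv (convex_Icc _ _) hc.continuousOn
    (fun s hs => (hd s hs).differentiableAt.differentiableWithinAt)
  intro s hs t ht hst
  rw [(hd s hs).deriv, (hd t ht).deriv]
  rw [interior_Icc] at hs ht
  exact gg_anti hv1 hs.1 hst ht.2

theorem task_CC : S_CC := by
  intro x y hx hy hs h1 h2 hx0 hx3 hy0 hy3 l hl0 hl1
  unfold pt
  rw [Finset.mul_sum, Finset.mul_sum, ← Finset.sum_add_distrib]
  apply Finset.sum_le_sum
  intro i _
  have e1 : dn y i = dn x i := by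
    unfold dn
    rw [h1, h2]
  have e2 : dn (fun i => (1 - l) * x i + l * y i) i = dn x i := by
    unfold dn
    have e3 : n1 (fun i => (1 - l) * x i + l * y i) = (1 - l) * n1 x + l * n1 y := by
      unfold n1; ring
    have e4 : n2 (fun i => (1 - l) * x i + l * y i) = (1 - l) * n2 x + l * n2 y := by
      unfold n2; ring
    rw [e3, e4, h1, h2]
    split_ifs <;> ring
  rw [e1, e2]
  have n10 : 0 ≤ n1 x := by
    unfold n1
    linarith [hx 0, hx 1, hx 2]
  have n20 : 0 ≤ n2 x := by
    unfold n2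
    linarith [hx 3, hx 4, hx 5]
  have hv1 : dn x i ≤ 1 := by
    unfold dn
    split_ifs <;> linarith
  have key : ∀ z : Fin 6 → ℝ, (∀ i, 0 ≤ z i) → n1 z = n1 x → n2 z = n2 x → z 0 ≤ n2 x →
      z 3 ≤ n1 x → z i ≤ dn x i := by
    intro z hz g1 g2 g3 g4
    have f0 := hz 0
    have f1 := hz 1
    have f2 := hz 2
    have f3 := hz 3
    have f4 := hz 4
    have f5 := hz 5
    have g5 : z 0 + z 1 + z 2 = n1 x := g1
    have g6 : z 3 + z 4 + z 5 = n2 x := g2
    fin_cases i
    · show z 0 ≤ n2 x
      linarith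
    · show z 1 ≤ n1 x
      linarith
    · show z 2 ≤ n1 x
      linarith
    · show z 3 ≤ n1 x
      linarith
    · show z 4 ≤ n2 x
      linarith
    · show z 5 ≤ n2 x
      linarith
  have kx := key x hx rfl rfl hx0 hx3
  have ky := key y hy h1 h2 hy0 hy3
  have h := (conc hv1).2 (⟨hx i, kx⟩ : x i ∈ Icc 0 (dn x i)) (⟨hy i, ky⟩ : y i ∈ Icc 0 (dn x i))
    (by linarith : 0 ≤ 1 - l) hl0 (by ring)
  simpa only [smul_eq_mul] using h

end Pool.Agent.Q176.HU
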