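import Pool.Agent.Q99.HU.Stm1
import Pool.Agent.Q208.KN.B0

/-!
# Job HU-FSB of helper99: the weight of a region
-/

set_option autoImplicit false

namespace Pool.Agent.Q176.HU

open Finset
open Pool.Agent.Q99.KN (sn bc Wk zl ez Fk)
open Pool.Agent.Q99.HU

theorem bc_diff (N k : ℕ) {f : ℂ → ℂ} (hf : Differentiable ℂ f) :
    Differentiable ℂ (fun z : ℂ => bc N (f z) k) := by
  unfold bc sn
  refine Differentiable.div_const ?_ _
  apply Differentiable.fun_finset_prod
  intro i _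
  fun_prop

theorem Wk_diff (N A b C : ℕ) : Differentiable ℂ (fun z : ℂ => Wk N z A b C) := by
  unfold Wk
  apply Differentiable.fun_sum
  intro j _
  have h1 : Differentiable ℂ (fun z : ℂ => ((N : ℂ) - 1 - z) / 2) := by fun_prop
  have h2 : Differentiable ℂ (fun z : ℂ => ((N : ℂ) - 1 + z) / 2) := by fun_prop
  exact (((bc_diff N _ h1).mul (bc_diff N _ h2)).mul ((bc_diff N _ h2).mul (bc_diff N _ h1))).mul
    ((bc_diff N _ h2).mul (bc_diff N _ h1))

theorem task_FSB : S_FSB := by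
  rintro ⟨C0, p, h⟩ w
  obtain ⟨E, hE⟩ : ∃ E : ℝ, E = Real.pi * |(w : ℝ)| / 2 + Real.pi + 1 := ⟨_, rfl⟩
  have hE0 : 0 < E := by
    rw [hE]
    have := Real.pi_pos
    positivity
  refine ⟨E * C0, p + 1, fun N A b C hN hs => ?_⟩
  obtain ⟨T, hT⟩ : ∃ T : ℕ → ℂ, T = fun k => deriv (fun z : ℂ => ez N w z *
    Complex.sin (Real.pi * z / N) * Wk N z A b C) (zl N k) := ⟨_, rfl⟩
  have hF : Fk N w A b C = ∑ k ∈ range N, T k := by rw [hT]; rfl
  have hb : ∀ k < N, ‖T k‖ ≤ E * (‖Wk N (zl N k) A b C‖ +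
      ‖deriv (fun z => Wk N z A b C) (zl N k)‖) := by
    intro k hk
    have h1 := Pool.Agent.Q208.KN.step_zeta w (by omega : 1 ≤ N) hk (fun z => Wk N z A b C)
      (Wk_diff N A b C _)
    rw [hT]
    refine h1.trans ?_
    have n1 := norm_nonneg (Wk N (zl N k) A b C)
    have n2 := norm_nonneg (deriv (fun z => Wk N z A b C) (zl N k))
    have h3 : 0 ≤ Real.pi * |(w : ℝ)| / 2 + Real.pi := by
      have := Real.pi_pos
      positivity
    have h5 := mul_nonneg h3 n2
    rw [hE, mul_add]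
    linarith
  obtain ⟨k, hk, hmax⟩ := Finset.exists_max_image (range N) (fun k => ‖T k‖)
    ⟨0, Finset.mem_range.2 (by omega)⟩
  rw [Finset.mem_range] at hk
  have hsum : ‖Fk N w A b C‖ ≤ N * ‖T k‖ := by
    rw [hF]
    refine (norm_sum_le _ _).trans ?_
    have h1 := Finset.sum_le_card_nsmul (range N) (fun k => ‖T k‖) _ hmax
    rwa [Finset.card_range, nsmul_eq_mul] at h1
  rcases h N A b C k hN hs hk with h0 | ⟨x, hx, -, hxb⟩
  · left
    have h1 := hb k hk
    rw [h0, mul_zero] at h1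
    have h2 : ‖Fk N w A b C‖ ≤ 0 := hsum.trans (by
      have h3 := mul_le_mul_of_nonneg_left h1 (Nat.cast_nonneg (α := ℝ) N)
      linarith)
    exact norm_le_zero_iff.1 h2
  · right
    refine ⟨x, hx, hsum.trans ?_⟩
    have h1 := (hb k hk).trans (mul_le_mul_of_nonneg_left hxb hE0.le)
    have h3 := mul_le_mul_of_nonneg_left h1 (Nat.cast_nonneg (α := ℝ) N)
    refine h3.trans (le_of_eq ?_)
    ring

end Pool.Agent.Q176.HU
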